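import Pool.Agent.Helper7_MWKP.RMN

/-!
# Block MWKP, row INB: insertion of `x^(2n)` in front of `y`, type B
-/

set_option autoImplicit false

namespace Pool.Agent.MWKP.H7

open Pool.Agent.Helper14_MV Pool.Agent.Helper2_MV Pool.Agent.MWK Pool.Agent.MWKP

theorem pre_dec {w : List ℕ} {y : ℕ} (hy : y ∈ w) : ∃ Q, w = pre w y ++ y :: Q ∧
    w.drop (pre w y).length = y :: Q := by
  obtain ⟨A, Q, h, hA⟩ : ∃ A Q, w = A ++ y :: Q ∧ y ∉ A := by
    obtain ⟨A, Q, h1, h2⟩ := List.eq_append_cons_of_mem hy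
    exact ⟨A, Q, h1, h2⟩
  have h1 : pre w y = A := by
    rw [h, pre_append hA, pre_cons_self, List.append_nil]
  refine ⟨Q, by rw [h1]; exact h, ?_⟩
  rw [h1, h, List.drop_left]

/-- the cut behind `y`: `x` is dead in front of the next wall -/
theorem cut_dead {m : ℕ} {w P Q0 : List ℕ} {x y : ℕ} (hw : w = P ++ y :: Q0) (hC : CX m w y x) :
    ∃ q R0, Q0 = q ++ R0 ∧ (∀ z ∈ q, z ∉ P ++ [y] → ¬ Dp m w z) ∧
      2 ≤ (P ++ y :: q).count x := by
  obtain ⟨q, R0, hQ, hq, hR⟩ := T.cut (fun z => Dp m w z) (P ++ [y]) Q0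
  refine ⟨q, R0, hQ, hq, ?_⟩
  have hw' : w = (P ++ [y] ++ q) ++ R0 := by
    rw [hw, hQ]
    simp
  have e1 : P ++ y :: q = P ++ [y] ++ q := by simp
  rw [e1]
  rcases hR with hR | ⟨t, R', hR, ht, htD⟩
  · rw [hR, List.append_nil] at hw'
    rw [← hw']
    exact hC.1
  · have hp : pre w t = P ++ [y] ++ q := by
      rw [hw', hR, pre_append ht, pre_cons_self, List.append_nil]
    rw [← hp]
    refine hC.2 t htD ?_
    rw [hp]
    simp

theorem inb (hD : KddStmt) : InbStmt := by
  intro n θ hK m w x y hW hy hd hC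
  obtain ⟨Q0, hw, hdrop⟩ := pre_dec hy
  obtain ⟨P, hP⟩ : ∃ P, P = pre w y := ⟨_, rfl⟩
  rw [← hP] at hw
  obtain ⟨q, R0, hQ, hq, hx⟩ := cut_dead hw hC
  have hw' : w = (P ++ y :: q) ++ R0 := by
    rw [hw, hQ]
    simp
  obtain ⟨qs, R, hl, hR, hok, -⟩ := T.seg m w (P ++ y :: q) R0 (y :: q) hw' (by
    intro z hz
    rcases List.mem_cons.1 hz with h | h
    · right
      rw [h]
      exact ⟨by simp, hd⟩
    · by_cases hzP : z ∈ P ++ [y]
      · left
        have h1 := List.count_pos_iff.2 hzP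
        have h2 := List.count_pos_iff.2 h
        have e : P ++ y :: q = (P ++ [y]) ++ q := by simp
        rw [e, List.count_append]
        omega
      · exact Or.inr ⟨by simp [h], hq z h hzP⟩)
  have h1 := hW P [x] (y :: q) qs R hl hok
  rw [pw_single] at h1
  have h2 := hD n θ hK (P ++ y :: q) (List.replicate (2 * n) x) [] R0 (by
    intro l hl
    rw [List.eq_of_mem_replicate hl]
    exact hx) (by simp) (by
    intro l
    by_cases hlx : l = x
    · subst hlx
      rw [List.count_replicate_self, List.count_nil]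
      exact (Nat.modEq_zero_iff_dvd).2 (Dvd.intro_left _ rfl)
    · rw [List.count_replicate, if_neg (by simpa using fun h => hlx h.symm)]
      exact Nat.ModEq.refl _)
  have e1 : ipt w y x (2 * n) =
      P ++ List.replicate (2 * n) x ++ (y :: q) ++ qs.flatten ++ R := by
    unfold ipt
    rw [hdrop, ← hP, hQ, hR]
    simp
  have e2 : P ++ (y :: q) ++ List.replicate (2 * n) x ++ qs.flatten ++ R =
      P ++ y :: q ++ List.replicate (2 * n) x ++ R0 := by
    rw [hR]
    simp
  have e3 : P ++ y :: q ++ [] ++ R0 = w := by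
    rw [hw']
    simp
  rw [← e1, e2] at h1
  rw [e3] at h2
  exact θ.symm (θ.trans h1 h2)

end Pool.Agent.MWKP.H7
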