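import Pool.Agent.MWKP.Stmts
import Pool.Agent.MWKP.Tools

/-!
# Block MWKP, row RMN: the residue move at a wall
-/

set_option autoImplicit false

namespace Pool.Agent.MWKP.H7

open Pool.Agent.Helper14_MV Pool.Agent.Helper2_MV Pool.Agent.MWK Pool.Agent.MWKP

theorem pw_single (k x : ℕ) : pw k [x] = List.replicate k x := by
  unfold pw
  induction k with
  | zero => rfl
  | succ k ih => rw [List.replicate_succ, List.flatten_cons, ih, List.replicate_succ]; rfl

/-- monotonicity of `Ok` with dead letters -/
theorem ok_dead {qs : List (List ℕ)} {A A' S S' : List ℕ} (h : Ok A S qs)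
    (hA : ∀ l, A.count l ≤ A'.count l) (hS : ∀ z ∈ S', z ∈ S ∨ 2 ≤ A'.count z) : Ok A' S' qs := by
  cases qs with
  | nil => trivial
  | cons q qs =>
    obtain ⟨h1, h2⟩ := h
    refine ⟨fun z hz => ?_, T.okm qs (A ++ q) (A' ++ q) q q h2 ?_ (fun z hz => hz)⟩
    · rw [List.count_append]
      rcases hS z hz with h3 | h3
      · have h4 := h1 z h3
        rw [List.count_append] at h4
        have := hA z
        omega
      · omega
    · intro l
      rw [List.count_append, List.count_append]
      have := hA l
      omega

theorem rmn (hD : KddStmt) : RmnStmt := by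
  intro n θ hK k j P Q x y hW hy hd hx
  obtain ⟨qs, R, hl, hQ, hok, -⟩ := T.seg k (P ++ y :: Q) (P ++ [y]) Q [y] (by simp) (by
    intro z hz
    rw [List.mem_singleton] at hz
    subst hz
    exact Or.inr ⟨by simp, hd⟩)
  have h1 := hW P [x] (y :: List.replicate ((n - 1) * j) x) qs R (by
    intro l hl
    rw [List.mem_singleton] at hl
    subst hl
    exact hx) hl (ok_dead hok (by
      intro l
      simp only [List.count_append, List.count_cons, List.count_nil]
      omega) (by
      intro z hz
      rcases List.mem_cons.1 hz with h | h
      · left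
        rw [h]
        simp
      · right
        rw [List.eq_of_mem_replicate h, List.count_append]
        omega))
  rw [pw_single] at h1
  have h2 := hD n θ hK (P ++ [y]) (List.replicate ((n - 1) * j) x ++ List.replicate j x) [] Q (by
    intro l hl
    have : l = x := by
      rcases List.mem_append.1 hl with h | h <;> exact List.eq_of_mem_replicate h
    rw [this, List.count_append]
    omega) (by simp) (by
    intro l
    rw [← List.replicate_add]
    have h3 : (n - 1) * j + j = n * j := by
      obtain ⟨m, hm⟩ : ∃ m, n = m + 1 := ⟨n - 1, by have := hK.pos; omega⟩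
      rw [hm, Nat.add_sub_cancel]
      ring
    rw [h3]
    by_cases hlx : l = x
    · subst hlx
      rw [List.count_replicate_self, List.count_nil]
      exact (Nat.modEq_zero_iff_dvd).2 (Dvd.intro _ rfl)
    · rw [List.count_replicate, if_neg (by simpa using fun h => hlx h.symm)]
      exact Nat.ModEq.refl _)
  have e1 : P ++ List.replicate j x ++ (y :: List.replicate ((n - 1) * j) x) ++ qs.flatten ++ R =
      P ++ List.replicate j x ++ y :: (List.replicate ((n - 1) * j) x ++ Q) := by
    rw [hQ]
    simp
  have e2 : P ++ (y :: List.replicate ((n - 1) * j) x) ++ List.replicate j x ++ qs.flatten ++ R =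
      P ++ [y] ++ (List.replicate ((n - 1) * j) x ++ List.replicate j x) ++ Q := by
    rw [hQ]
    simp
  have e3 : P ++ [y] ++ [] ++ Q = P ++ y :: Q := by simp
  rw [e1, e2] at h1
  rw [e3] at h2
  exact θ.symm (θ.trans h1 h2)

end Pool.Agent.MWKP.H7
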